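import Pool.Agent.W402.HI.Defs

/-! # HI-E3: growth of the resolvent outside cones -/

set_option autoImplicit false

open Filter Topology MeasureTheory Metric

namespace W125.HI

open Pool.Agent.W402.HI

section est

lemma est1 (a1 β L0 Q B : ℝ) (m : ℕ) (ha : 0 ≤ a1) (hβ : 1 ≤ β) (hL : 0 ≤ L0) (hQ : 1 ≤ Q)
    (hm : (m : ℝ) ≤ a1 * Q) (hB1 : 1 ≤ B) (hB : B ≤ Real.exp (β + a1 * Q)) :
    (1 + B ^ 2) ^ m ≤ Real.exp (a1 * (4 * β + 4 * a1 + L0) * Q ^ 2) ∧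
    (1 + B * L0) ^ m ≤ Real.exp (a1 * (4 * β + 4 * a1 + L0) * Q ^ 2) ∧
    (2 + B ^ 2) ^ m ≤ Real.exp (4 * a1 * (β + a1) * Q ^ 2) ∧
    (2 : ℝ) ^ m ≤ Real.exp (a1 * Q ^ 2) ∧ B ^ 3 ≤ Real.exp (3 * (β + a1) * Q ^ 2) := by
  have hQ2 : Q ≤ Q ^ 2 := by nlinarith
  have hy0 : 0 ≤ β + a1 * Q := by positivity
  have hyQ : β + a1 * Q ≤ (β + a1) * Q := by nlinarith
  have hmy : ∀ c : ℝ, 0 ≤ c → (m : ℝ) * (c * (β + a1 * Q)) ≤ c * a1 * (β + a1) * Q ^ 2 := by
    intro c hc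
    calc (m : ℝ) * (c * (β + a1 * Q)) ≤ (a1 * Q) * (c * ((β + a1) * Q)) := by
          apply mul_le_mul hm _ (by positivity) (by positivity)
          exact mul_le_mul_of_nonneg_left hyQ hc
      _ = c * a1 * (β + a1) * Q ^ 2 := by ring
  have hB2 : B ^ 2 ≤ Real.exp (2 * (β + a1 * Q)) := by
    calc B ^ 2 ≤ Real.exp (β + a1 * Q) ^ 2 := by gcongr
      _ = Real.exp (2 * (β + a1 * Q)) := by rw [← Real.exp_nat_mul]; norm_num
  have he1 : (2 : ℝ) ≤ Real.exp 1 := by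
    have := Real.add_one_le_exp 1
    linarith
  have he2 : (3 : ℝ) ≤ Real.exp 2 := by
    have := Real.add_one_le_exp 2
    linarith
  have hB2' : 1 ≤ B ^ 2 := one_le_pow₀ hB1
  have h1 : 1 + B ^ 2 ≤ Real.exp (3 * (β + a1 * Q)) := by
    calc 1 + B ^ 2 ≤ 2 * B ^ 2 := by linarith
      _ ≤ Real.exp 1 * Real.exp (2 * (β + a1 * Q)) := by gcongr
      _ = Real.exp (1 + 2 * (β + a1 * Q)) := by rw [Real.exp_add]
      _ ≤ Real.exp (3 * (β + a1 * Q)) := by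
        apply Real.exp_le_exp.mpr
        nlinarith [mul_nonneg ha (zero_le_one.trans hQ)]
  have h2 : 2 + B ^ 2 ≤ Real.exp (4 * (β + a1 * Q)) := by
    calc 2 + B ^ 2 ≤ 3 * B ^ 2 := by linarith
      _ ≤ Real.exp 2 * Real.exp (2 * (β + a1 * Q)) := by gcongr
      _ = Real.exp (2 + 2 * (β + a1 * Q)) := by rw [Real.exp_add]
      _ ≤ Real.exp (4 * (β + a1 * Q)) := by
        apply Real.exp_le_exp.mpr
        nlinarith [mul_nonneg ha (zero_le_one.trans hQ)]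
  have h3 : 1 + B * L0 ≤ Real.exp (β + a1 * Q + L0) := by
    calc 1 + B * L0 ≤ B * (L0 + 1) := by nlinarith
      _ ≤ Real.exp (β + a1 * Q) * Real.exp L0 := by
        apply mul_le_mul hB (Real.add_one_le_exp L0) (by positivity) (Real.exp_pos _).le
      _ = Real.exp (β + a1 * Q + L0) := by rw [← Real.exp_add]
  refine ⟨?_, ?_, ?_, ?_, ?_⟩
  · calc (1 + B ^ 2) ^ m ≤ Real.exp (3 * (β + a1 * Q)) ^ m := by gcongr
      _ = Real.exp (m * (3 * (β + a1 * Q))) := by rw [← Real.exp_nat_mul]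
      _ ≤ _ := by
        apply Real.exp_le_exp.mpr
        refine (hmy 3 (by norm_num)).trans ?_
        apply mul_le_mul_of_nonneg_right _ (by positivity)
        nlinarith [mul_nonneg ha hL, mul_nonneg ha (zero_le_one.trans hβ), mul_nonneg ha ha]
  · calc (1 + B * L0) ^ m ≤ Real.exp (β + a1 * Q + L0) ^ m := by gcongr
      _ = Real.exp (m * (β + a1 * Q + L0)) := by rw [← Real.exp_nat_mul]
      _ ≤ _ := by
        apply Real.exp_le_exp.mpr
        calc (m : ℝ) * (β + a1 * Q + L0) ≤ (a1 * Q) * ((β + a1 + L0) * Q) := by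
              apply mul_le_mul hm _ (by positivity) (by positivity)
              nlinarith
          _ = a1 * (β + a1 + L0) * Q ^ 2 := by ring
          _ ≤ a1 * (4 * β + 4 * a1 + L0) * Q ^ 2 := by
            apply mul_le_mul_of_nonneg_right _ (by positivity)
            nlinarith [mul_nonneg ha (zero_le_one.trans hβ), mul_nonneg ha ha]
  · calc (2 + B ^ 2) ^ m ≤ Real.exp (4 * (β + a1 * Q)) ^ m := by gcongr
      _ = Real.exp (m * (4 * (β + a1 * Q))) := by rw [← Real.exp_nat_mul]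
      _ ≤ _ := by
        apply Real.exp_le_exp.mpr
        exact hmy 4 (by norm_num)
  · calc (2 : ℝ) ^ m ≤ Real.exp 1 ^ m := by gcongr
      _ = Real.exp (m * 1) := by rw [← Real.exp_nat_mul]
      _ ≤ _ := by
        apply Real.exp_le_exp.mpr
        nlinarith
  · calc B ^ 3 ≤ Real.exp (β + a1 * Q) ^ 3 := by gcongr
      _ = Real.exp (3 * (β + a1 * Q)) := by rw [← Real.exp_nat_mul]; norm_num
      _ ≤ _ := by
        apply Real.exp_le_exp.mpr
        nlinarith [mul_nonneg ha (zero_le_one.trans hβ)]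

lemma est2 (a1 β L0 Q B Cθ W W' x : ℝ) (m : ℕ) (ha : 0 ≤ a1) (hβ : 1 ≤ β) (hL : 0 ≤ L0)
    (hQ : 1 ≤ Q) (hC : 0 ≤ Cθ) (hW : 1 ≤ W) (hW0 : 0 ≤ W') (hW' : W' ≤ W)
    (hm : (m : ℝ) ≤ a1 * Q) (hB1 : 1 ≤ B) (hB : B ≤ Real.exp (β + a1 * Q))
    (hx : Real.exp (-(Cθ * W' * (a1 * (4 * β + 4 * a1 + L0) * Q ^ 2))) ≤ x) :
    B + B ^ 3 * (2 ^ m * (2 + B ^ 2) ^ m) / x ≤
      Real.exp ((1 + 3 * (β + a1) + a1 + 4 * a1 * (β + a1) +
        Cθ * (a1 * (4 * β + 4 * a1 + L0))) * (Q ^ 2 * W)) := by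
  obtain ⟨-, -, h3, h4, h5⟩ := est1 a1 β L0 Q B m ha hβ hL hQ hm hB1 hB
  set M := a1 * (4 * β + 4 * a1 + L0) with hM
  have hM0 : 0 ≤ M := by positivity
  have hx0 : 0 < x := (Real.exp_pos _).trans_le hx
  have h6 : x⁻¹ ≤ Real.exp (Cθ * W' * (M * Q ^ 2)) := by
    have := inv_anti₀ (Real.exp_pos _) hx
    rwa [← Real.exp_neg, neg_neg] at this
  have he1 : (2 : ℝ) ≤ Real.exp 1 := by
    have := Real.add_one_le_exp 1
    linarith
  have hQ2 : 1 ≤ Q ^ 2 := one_le_pow₀ hQ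
  have hexp1 : 1 ≤ Real.exp (Cθ * W' * (M * Q ^ 2)) := Real.one_le_exp (by positivity)
  set Y := Real.exp (Cθ * W' * (M * Q ^ 2)) with hY
  have h7 : B ≤ B ^ 3 * (2 ^ m * (2 + B ^ 2) ^ m) * Y := by
    have e1 : B ≤ B ^ 3 := by
      calc B = B ^ 1 := (pow_one B).symm
        _ ≤ B ^ 3 := pow_le_pow_right₀ hB1 (by norm_num)
    have e2 : (1 : ℝ) ≤ 2 ^ m := one_le_pow₀ (by norm_num)
    have e3 : (1 : ℝ) ≤ (2 + B ^ 2) ^ m := one_le_pow₀ (by nlinarith [sq_nonneg B])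
    have e4 : (1 : ℝ) ≤ 2 ^ m * (2 + B ^ 2) ^ m := one_le_mul_of_one_le_of_one_le e2 e3
    calc B ≤ B ^ 3 * 1 * 1 := by linarith
      _ ≤ B ^ 3 * (2 ^ m * (2 + B ^ 2) ^ m) * Y := by gcongr
  have h8 : B ^ 3 * (2 ^ m * (2 + B ^ 2) ^ m) / x ≤ B ^ 3 * (2 ^ m * (2 + B ^ 2) ^ m) * Y := by
    rw [div_eq_mul_inv]
    gcongr
  calc B + B ^ 3 * (2 ^ m * (2 + B ^ 2) ^ m) / x
      ≤ 2 * (B ^ 3 * (2 ^ m * (2 + B ^ 2) ^ m) * Y) := by linarith
    _ ≤ Real.exp 1 * ((Real.exp (3 * (β + a1) * Q ^ 2) * (Real.exp (a1 * Q ^ 2) *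
          Real.exp (4 * a1 * (β + a1) * Q ^ 2))) * Y) := by gcongr
    _ = Real.exp (1 + (3 * (β + a1) * Q ^ 2 + (a1 * Q ^ 2 + 4 * a1 * (β + a1) * Q ^ 2) +
          Cθ * W' * (M * Q ^ 2))) := by
        rw [hY, ← Real.exp_add, ← Real.exp_add, ← Real.exp_add, ← Real.exp_add]
    _ ≤ _ := by
        apply Real.exp_le_exp.mpr
        have g1 : 1 ≤ Q ^ 2 * W := one_le_mul_of_one_le_of_one_le hQ2 hW
        have g2 : Q ^ 2 ≤ Q ^ 2 * W := le_mul_of_one_le_right (by positivity) hW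
        have g3 : 3 * (β + a1) * Q ^ 2 ≤ 3 * (β + a1) * (Q ^ 2 * W) := by gcongr
        have g4 : a1 * Q ^ 2 ≤ a1 * (Q ^ 2 * W) := by gcongr
        have g5 : 4 * a1 * (β + a1) * Q ^ 2 ≤ 4 * a1 * (β + a1) * (Q ^ 2 * W) := by gcongr
        have g6 : Cθ * W' * (M * Q ^ 2) ≤ Cθ * M * (Q ^ 2 * W) := by
          calc Cθ * W' * (M * Q ^ 2) ≤ Cθ * W * (M * Q ^ 2) := by gcongr
            _ = Cθ * M * (Q ^ 2 * W) := by ring
        calc 1 + (3 * (β + a1) * Q ^ 2 + (a1 * Q ^ 2 + 4 * a1 * (β + a1) * Q ^ 2) +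
              Cθ * W' * (M * Q ^ 2))
            ≤ 1 * (Q ^ 2 * W) + (3 * (β + a1) * (Q ^ 2 * W) + (a1 * (Q ^ 2 * W) +
              4 * a1 * (β + a1) * (Q ^ 2 * W)) + Cθ * M * (Q ^ 2 * W)) := by linarith
          _ = _ := by ring

end est

section neumann

variable {X : Type} [NormedAddCommGroup X] [NormedSpace ℂ X] [CompleteSpace X]

lemma neumann (S L : X →L[ℂ] X) (z : ℂ) (hz : z ∈ resolventSet ℂ S)
    (h : ‖L‖ * ‖resolvent S z‖ ≤ 1 / 2) :
    z ∈ resolventSet ℂ (S + L) ∧ ‖resolvent (S + L) z‖ ≤ 2 * ‖resolvent S z‖ := by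
  set R := resolvent S z with hR
  have hu : IsUnit (algebraMap ℂ (X →L[ℂ] X) z - S) := hz
  have h1 : (algebraMap ℂ (X →L[ℂ] X) z - S) * R = 1 := Ring.mul_inverse_cancel _ hu
  have h2 : R * (algebraMap ℂ (X →L[ℂ] X) z - S) = 1 := Ring.inverse_mul_cancel _ hu
  have h3 : ‖R * L‖ ≤ 1 / 2 := by
    refine (norm_mul_le _ _).trans ?_
    rw [mul_comm]
    exact h
  have h4 : IsUnit (1 - R * L) := isUnit_one_sub_of_norm_lt_one (h3.trans_lt (by norm_num))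
  have h5 : algebraMap ℂ (X →L[ℂ] X) z - (S + L) =
      (algebraMap ℂ (X →L[ℂ] X) z - S) * (1 - R * L) := by
    rw [mul_sub, mul_one, ← mul_assoc, h1, one_mul, sub_sub]
  have h6 : IsUnit (algebraMap ℂ (X →L[ℂ] X) z - (S + L)) := by
    rw [h5]
    exact hu.mul h4
  refine ⟨h6, ?_⟩
  set Y := resolvent (S + L) z with hY
  have h7 : (algebraMap ℂ (X →L[ℂ] X) z - (S + L)) * Y = 1 := Ring.mul_inverse_cancel _ h6
  have h8 : Y = R + R * L * Y := by
    have e1 : R * ((algebraMap ℂ (X →L[ℂ] X) z - (S + L)) * Y) = R := by rw [h7, mul_one]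
    have e2 : R * ((algebraMap ℂ (X →L[ℂ] X) z - (S + L)) * Y) = Y - R * L * Y := by
      rw [h5, ← mul_assoc, ← mul_assoc, h2, one_mul, sub_mul, one_mul]
    rw [e2] at e1
    exact sub_eq_iff_eq_add.mp e1
  have h9 : ‖Y‖ ≤ ‖R‖ + 1 / 2 * ‖Y‖ := by
    calc ‖Y‖ = ‖R + R * L * Y‖ := by rw [← h8]
      _ ≤ ‖R‖ + ‖R * L * Y‖ := norm_add_le _ _
      _ ≤ ‖R‖ + ‖R * L‖ * ‖Y‖ := by gcongr; exact norm_mul_le _ _
      _ ≤ ‖R‖ + 1 / 2 * ‖Y‖ := by gcongr
  linarith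

end neumann

lemma geo (E : Set ℂ) (w d : ℂ) (hw : w ∈ E) (hd : ‖d‖ = 1) (θ r0 : ℝ) (hθ : 0 < θ)
    (hθ1 : θ ≤ 1)
    (ht : ∀ z ∈ E, ‖z - w‖ < r0 → |((z - w) / d).im| ≤ θ / 8 * |((z - w) / d).re|)
    (s : ℂ) (hs : ‖s‖ < r0 / 2) (hc : θ / 4 * |s.re| ≤ s.im) :
    θ / 20 * ‖s‖ ≤ infDist (w + d * s) E := by
  rw [le_infDist ⟨w, hw⟩]
  intro e he
  have hd0 : d ≠ 0 := by
    intro h
    rw [h, norm_zero] at hd
    exact zero_ne_one hd
  set t := (e - w) / d with htdef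
  have het : e = w + d * t := by
    rw [htdef, mul_div_cancel₀ _ hd0]
    ring
  have hdist : dist (w + d * s) e = ‖s - t‖ := by
    rw [het, dist_add_left, dist_eq_norm, ← mul_sub, norm_mul, hd, one_mul]
  have hnt : ‖e - w‖ = ‖t‖ := by
    rw [htdef, norm_div, hd, div_one]
  rw [hdist]
  have hsn := norm_nonneg s
  have him : 0 ≤ s.im := le_trans (by positivity) hc
  by_cases h : ‖e - w‖ < r0
  · have h1 := ht e he h
    have h2 : |t.re| ≤ |s.re| + ‖s - t‖ := by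
      have := Complex.abs_re_le_norm (s - t)
      rw [Complex.sub_re] at this
      have h3 := abs_sub_abs_le_abs_sub t.re s.re
      rw [abs_sub_comm] at h3
      linarith
    have h3 : s.im ≤ |t.im| + ‖s - t‖ := by
      have := Complex.abs_im_le_norm (s - t)
      rw [Complex.sub_im] at this
      have h4 := le_abs_self (s.im - t.im)
      have h5 := le_abs_self t.im
      linarith
    have h4 : θ / 8 * |t.re| ≤ θ / 8 * |s.re| + 1 / 8 * ‖s - t‖ := by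
      calc θ / 8 * |t.re| ≤ θ / 8 * (|s.re| + ‖s - t‖) := by gcongr
        _ = θ / 8 * |s.re| + θ / 8 * ‖s - t‖ := by ring
        _ ≤ θ / 8 * |s.re| + 1 / 8 * ‖s - t‖ := by gcongr
    have h5 : s.im ≤ s.im / 2 + 9 / 8 * ‖s - t‖ := by linarith
    have h6 : θ * ‖s‖ ≤ 5 * s.im := by
      have h7 := Complex.norm_le_abs_re_add_abs_im s
      rw [abs_of_nonneg him] at h7
      calc θ * ‖s‖ ≤ θ * (|s.re| + s.im) := by gcongr
        _ = 4 * (θ / 4 * |s.re|) + θ * s.im := by ring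
        _ ≤ 4 * s.im + 1 * s.im := by gcongr
        _ = 5 * s.im := by ring
    linarith
  · push Not at h
    rw [hnt] at h
    have h1 : ‖t‖ - ‖s‖ ≤ ‖s - t‖ := by
      have := norm_sub_norm_le t s
      rwa [norm_sub_rev] at this
    have h2 : θ / 20 * ‖s‖ ≤ 1 * ‖s‖ := by
      gcongr
      linarith
    linarith

lemma sect_open (θ ρ r : ℝ) : IsOpen (Sect θ ρ r) := by
  have h1 : IsOpen {z : ℂ | θ / 4 * |z.re| < z.im} :=
    isOpen_lt (by fun_prop) (by fun_prop)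
  have h2 : IsOpen {z : ℂ | θ * ρ / 8 < ‖z‖} := isOpen_lt (by fun_prop) (by fun_prop)
  have h3 : IsOpen {z : ℂ | ‖z‖ < 2 * r} := isOpen_lt (by fun_prop) (by fun_prop)
  exact h1.inter (h2.inter h3)

lemma core (hD : P_D2) (hE : P_E2) (X : Type) [NormedAddCommGroup X] [NormedSpace ℂ X]
    [CompleteSpace X] (S K : X →L[ℂ] X) (E : Set ℂ) (C : ℝ) (p : ℕ) (hP : Pert S K E C p)
    (hsp : spectrum ℂ (S + K) ⊆ E) (w : ℂ) (hw : w ∈ E) (d : ℂ) (hd : ‖d‖ = 1)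
    (hT : TangentAt E w d) (θ : ℝ) (hθ : 0 < θ) (hθ1 : θ ≤ 1) :
    ∃ C' r : ℝ, 0 < r ∧ ∀ z : ℂ, z ≠ w → ‖z - w‖ < r →
      θ * |((z - w) / d).re| ≤ ((z - w) / d).im →
      ‖resolvent (S + K) z‖ ≤ Real.exp (C' / ‖z - w‖ ^ (2 * p + 8)) := by
  have hd0 : d ≠ 0 := by
    intro h
    rw [h, norm_zero] at hd
    exact zero_ne_one hd
  obtain ⟨r1, hr1, ht⟩ := hT (θ / 8) (by positivity)
  set r0 := min r1 1 with hr0
  have hr0pos : 0 < r0 := lt_min hr1 one_pos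
  have hr0le : r0 ≤ 1 := min_le_right _ _
  have ht' : ∀ z ∈ E, ‖z - w‖ < r0 → |((z - w) / d).im| ≤ θ / 8 * |((z - w) / d).re| :=
    fun z hz h => ht z hz (h.trans_le (min_le_left _ _))
  obtain ⟨Cθ, hCθ, hD2⟩ := hD θ hθ hθ1
  have hC0 : 0 ≤ C := by
    obtain ⟨G, -, h2, -⟩ := hP 1 one_pos le_rfl
    rw [one_pow, div_one] at h2
    exact le_trans (Nat.cast_nonneg _) h2
  set r := r0 / 8 with hr
  have hrpos : 0 < r := by positivity
  have hrle : r ≤ 1 := by linarith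
  -- constants
  set a1 := C * (160 / θ ^ 2) ^ p with ha1
  have ha1' : 0 ≤ a1 := by positivity
  set β := 1 + ‖K‖ + C + 2 with hβ
  have hβ1 : 1 ≤ β := by
    have := norm_nonneg K
    linarith
  set L0 := ‖resolvent (S + K) (w + d * (r * Complex.I))‖ with hL0
  have hL0' : 0 ≤ L0 := norm_nonneg _
  refine ⟨1 + 3 * (β + a1) + a1 + 4 * a1 * (β + a1) + Cθ * (a1 * (4 * β + 4 * a1 + L0)), r,
    hrpos, ?_⟩
  intro z hzw hzr hcone
  set s := (z - w) / d with hs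
  set ρ := ‖z - w‖ with hρ
  have hρpos : 0 < ρ := norm_pos_iff.mpr (sub_ne_zero.mpr hzw)
  have hsρ : ‖s‖ = ρ := by rw [hs, norm_div, hd, div_one]
  have hzs : w + d * s = z := by
    rw [hs, mul_div_cancel₀ _ hd0]
    ring
  have hρle : ρ ≤ 1 := by linarith
  set δ := θ ^ 2 * ρ / 160 with hδ
  have hδpos : 0 < δ := by positivity
  have hδ1 : δ ≤ 1 := by
    have h1 : θ ^ 2 ≤ 1 := pow_le_one₀ hθ.le hθ1
    have h2 : θ ^ 2 * ρ ≤ 1 * 1 := by gcongr
    rw [hδ]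
    linarith
  obtain ⟨G, hGf, hGr, hGn, hGz⟩ := hP δ hδpos hδ1
  set Q := 1 / ρ ^ p with hQ
  have hQ1 : 1 ≤ Q := by
    rw [hQ, le_div_iff₀ (by positivity), one_mul]
    exact pow_le_one₀ hρpos.le hρle
  have haQ : C / δ ^ p = a1 * Q := by
    rw [ha1, hQ, hδ, div_pow, mul_pow, div_pow]
    field_simp
  rw [haQ] at hGr hGz
  set m := Module.finrank ℂ (LinearMap.range (G : X →ₗ[ℂ] X)) with hm
  set B := 1 + ‖K‖ + C + 2 * Real.exp (a1 * Q) with hB
  have hexp0 : 1 ≤ Real.exp (a1 * Q) := Real.one_le_exp (by positivity)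
  have hKn := norm_nonneg K
  have hB1 : 1 ≤ B := by linarith
  have hBexp : B ≤ Real.exp (β + a1 * Q) := by
    have h1 : β ≤ Real.exp β := by linarith [Real.add_one_le_exp β]
    calc B ≤ β * Real.exp (a1 * Q) := by
          rw [hB, hβ]
          nlinarith
      _ ≤ Real.exp β * Real.exp (a1 * Q) := by gcongr
      _ = Real.exp (β + a1 * Q) := by rw [← Real.exp_add]
  have hGB : ‖G‖ ≤ B := by
    have h1 : ‖G‖ ≤ ‖K‖ + ‖K - G‖ := by
      have := norm_sub_le K (K - G)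
      rwa [sub_sub_cancel] at this
    linarith
  set U : Set ℂ := {z | (z - w) / d ∈ Sect θ ρ r} with hU
  have hUo : IsOpen U := (sect_open θ ρ r).preimage (by fun_prop)
  have hdist : ∀ ζ ∈ Sect θ ρ r, δ ≤ infDist (w + d * ζ) E := by
    intro ζ hζ
    obtain ⟨h1, h2, h3⟩ := hζ
    refine le_trans ?_ (geo E w d hw hd θ r0 hθ hθ1 ht' ζ (by linarith) h1.le)
    rw [hδ]
    calc θ ^ 2 * ρ / 160 = θ / 20 * (θ * ρ / 8) := by ring
      _ ≤ θ / 20 * ‖ζ‖ := by gcongr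
  have hUd : ∀ z ∈ U, δ ≤ infDist z E := by
    intro z hz
    have := hdist _ hz
    rw [mul_div_cancel₀ _ hd0] at this
    simpa using this
  have hUT : ∀ z ∈ U, z ∈ resolventSet ℂ (S + K) := by
    intro z hz
    by_contra h
    have h1 : z ∈ E := hsp h
    have h2 := hUd z hz
    rw [infDist_zero_of_mem h1] at h2
    linarith
  have hSK : S + (K - G) + G = S + K := by abel
  obtain ⟨f, hf1, hf2, hf3⟩ := hE X (S + (K - G)) G m B U hB1 hUo hGf le_rfl hGB (by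
    intro z hz
    obtain ⟨g1, g2, g3⟩ := hGz z (hUd z hz)
    obtain ⟨g4, g5⟩ := neumann S (K - G) z g1 g2
    refine ⟨g4, g5.trans ?_⟩
    rw [hB]
    linarith)
  rw [hSK] at hf3
  obtain ⟨e1, e2, -, -, -⟩ := est1 a1 β L0 Q B m ha1' hβ1 hL0' hQ1 hGr hB1 hBexp
  set M := a1 * (4 * β + 4 * a1 + L0) * Q ^ 2 with hM
  have hM0 : 0 ≤ M := by positivity
  have hmem : ∀ ζ ∈ Sect θ ρ r, w + d * ζ ∈ U := by
    intro ζ hζ
    rw [hU, Set.mem_ofPred_eq, add_sub_cancel_left, mul_div_cancel_left₀ _ hd0]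
    exact hζ
  have hrI : (r : ℂ) * Complex.I ∈ Sect θ ρ r := by
    have hn : ‖(r : ℂ) * Complex.I‖ = r := by
      rw [norm_mul, Complex.norm_I, mul_one, Complex.norm_real, Real.norm_of_nonneg hrpos.le]
    refine ⟨?_, ?_, ?_⟩
    · simp [hrpos]
    · rw [hn]
      have : θ * ρ ≤ 1 * ρ := by gcongr
      linarith
    · rw [hn]
      linarith
  have hsS : s ∈ Sect θ ρ r := by
    have him : 0 ≤ s.im := le_trans (by positivity) hcone
    refine ⟨?_, ?_, ?_⟩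
    · rcases eq_or_ne s.re 0 with h | h
      · rw [h, abs_zero, mul_zero]
        rcases him.lt_or_eq with h' | h'
        · exact h'
        · exfalso
          have : s = 0 := Complex.ext h h'.symm
          rw [this, norm_zero] at hsρ
          exact hρpos.ne hsρ
      · have h1 : 0 < |s.re| := abs_pos.mpr h
        have h2 : 0 < θ * |s.re| := by positivity
        have h3 : θ / 4 * |s.re| = (θ * |s.re|) / 4 := by ring
        rw [h3]
        linarith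
    · rw [hsρ]
      have : θ * ρ ≤ 1 * ρ := by gcongr
      linarith
    · rw [hsρ]
      linarith
  have hkey := hD2 (fun ζ => f (w + d * ζ)) r ρ M hρpos hzr.le hM0
    (by
      refine hf1.comp (by fun_prop) ?_
      intro ζ hζ
      exact hmem ζ hζ)
    (by
      intro ζ hζ
      exact (hf3 _ (hmem ζ hζ) (hUT _ (hmem ζ hζ))).1)
    (by
      intro ζ hζ
      exact (hf2 _ (hmem ζ hζ)).trans e1)
    (by
      obtain ⟨g1, g2, -⟩ := hf3 _ (hmem _ hrI) (hUT _ (hmem _ hrI))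
      have g3 : 0 < ‖f (w + d * (r * Complex.I))‖ := norm_pos_iff.mpr g1
      have g4 := g2.trans e2
      rw [Real.exp_neg]
      exact inv_le_of_inv_le₀ g3 g4)
    s hsρ hcone
  simp only [hzs] at hkey
  have hzU : z ∈ U := hsS
  obtain ⟨-, -, g3⟩ := hf3 z hzU (hUT z hzU)
  refine g3.trans ?_
  have hW : (1 : ℝ) ≤ 1 / ρ ^ 8 := by
    rw [le_div_iff₀ (by positivity), one_mul]
    exact pow_le_one₀ hρpos.le hρle
  have hfin := est2 a1 β L0 Q B Cθ (1 / ρ ^ 8) ((r / ρ) ^ 8) ‖f z‖ m ha1' hβ1 hL0' hQ1 hCθ hW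
    (by positivity) (by
      rw [div_pow]
      gcongr
      exact pow_le_one₀ hrpos.le hrle) hGr hB1 hBexp hkey
  refine hfin.trans (le_of_eq ?_)
  congr 1
  rw [hQ, div_eq_mul_one_div _ (ρ ^ (2 * p + 8))]
  congr 1
  rw [pow_add, pow_mul, div_pow, one_pow, ← pow_mul, ← pow_mul, mul_comm p 2]
  field_simp

theorem main (hD : P_D2) (hE : P_E2) : P_E3 := by
  intro X _ _ _ S K E C p _ hP hsp
  refine ⟨2 * p + 8, ?_⟩
  intro w hw d hd hT θ hθ
  set θ' := min θ 1 with hθ'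
  have h0 : 0 < θ' := lt_min hθ one_pos
  have h1 : θ' ≤ 1 := min_le_right _ _
  have hT' : TangentAt E w (-d) := by
    intro η hη
    obtain ⟨r, hr, h⟩ := hT η hη
    refine ⟨r, hr, ?_⟩
    intro z hz hzr
    have := h z hz hzr
    rw [div_neg, Complex.neg_im, Complex.neg_re, abs_neg, abs_neg]
    exact this
  obtain ⟨C1, r1, hr1, H1⟩ := core hD hE X S K E C p hP hsp w hw d hd hT θ' h0 h1
  obtain ⟨C2, r2, hr2, H2⟩ := core hD hE X S K E C p hP hsp w hw (-d) (by rwa [norm_neg]) hT' θ' h0 h1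
  refine ⟨max C1 C2, min r1 r2, lt_min hr1 hr2, ?_⟩
  intro z hzw hzr hcone
  have hpos : 0 < ‖z - w‖ := norm_pos_iff.mpr (sub_ne_zero.mpr hzw)
  have hcone' : θ' * |((z - w) / d).re| ≤ |((z - w) / d).im| := by
    refine le_trans ?_ hcone
    exact mul_le_mul_of_nonneg_right (min_le_left _ _) (abs_nonneg _)
  rcases le_total 0 ((z - w) / d).im with h | h
  · rw [abs_of_nonneg h] at hcone'
    refine (H1 z hzw (hzr.trans_le (min_le_left _ _)) hcone').trans ?_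
    apply Real.exp_le_exp.mpr
    gcongr
    exact le_max_left _ _
  · rw [abs_of_nonpos h] at hcone'
    refine (H2 z hzw (hzr.trans_le (min_le_right _ _)) ?_).trans ?_
    · rw [div_neg, Complex.neg_im, Complex.neg_re, abs_neg]
      exact hcone'
    · apply Real.exp_le_exp.mpr
      gcongr
      exact le_max_right _ _

end W125.HI
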